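import Pool.Agent.H77.FT.Stmts3
import Pool.Agent.H60.FT.COR

/-!
# FermatTate: FID
-/

open Finset

namespace Pool.Agent.H77.FT

namespace FIDaux

open COR

/-- the core, with `p` and `f` given. -/
theorem core (hst : STIStmt) (hfr : FROStmt) (p f : ℕ) (hp : p.Prime)
    (F : Type) [Field F] [Fintype F] (hcard : Fintype.card F = p ^ f) (ψ : AddChar F ℂ)
    (hψ : ψ.IsPrimitive) (P : Type) [CommGroup P] (T : GaussMotives F ψ P) (ι : Type) [Fintype ι]
    (χ : ι → MulChar F ℂ) (c N : ℕ) (hχ : ∀ i, χ i ≠ 1) (hc : Fintype.card ι = 2 * c)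
    (hN : 0 < N) (hg : (∏ i, gaussSum (χ i) ψ) ^ N = (Fintype.card F : ℂ) ^ (c * N)) :
    ∃ (n : ℕ) (_ : NeZero n) (E : ZMod n → P) (k : ι → ZMod n),
      0 < f ∧ (p : ZMod n) ^ f = 1 ∧ GaussDist n p T.L E ∧ (∀ i, k i ≠ 0) ∧
      (∀ i, addOrderOf (k i) = orderOf (χ i)) ∧ (∀ i, E (k i) = T.e (χ i)) ∧
      SlopeZero n p f k := by
  classical
  obtain ⟨hpc, hf⟩ : CharP F p ∧ 0 < f := by
    obtain ⟨p', hpc, ⟨f', hf'⟩, hp', hcard'⟩ := FiniteField.card' F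
    simp only [PNat.mk_coe] at hcard'
    have e1 : p' ^ f' = p ^ f := by rw [← hcard', hcard]
    have e2 : p' ∣ p := hp'.dvd_of_dvd_pow (e1 ▸ dvd_pow_self p' hf'.ne')
    have e3 : p' = p := (Nat.prime_dvd_prime_iff_eq hp' hp).1 e2
    subst e3
    exact ⟨hpc, (Nat.pow_right_injective hp.two_le e1) ▸ hf'⟩
  have hq : 1 < Fintype.card F := Fintype.one_lt_card
  have hn0 : Fintype.card F - 1 ≠ 0 := by omega
  have hne : NeZero (p ^ f - 1) := ⟨by rw [← hcard]; exact hn0⟩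
  -- a generator
  obtain ⟨θ, hθ⟩ := MulChar.exists_mulChar_orderOf_eq_card_units F
    (Complex.isPrimitiveRoot_exp (Fintype.card Fˣ) Fintype.card_ne_zero)
  rw [Fintype.card_units] at hθ
  have hθn : orderOf θ = p ^ f - 1 := by rw [hθ, hcard]
  have hGcard : Nat.card (MulChar F ℂ) = p ^ f - 1 := by
    have : NeZero ((Monoid.exponent Fˣ : ℕ) : ℂ) :=
      ⟨by exact_mod_cast Monoid.exponent_ne_zero_of_finite⟩
    rw [MulChar.card_eq_card_units_of_hasEnoughRootsOfUnity, Nat.card_eq_fintype_card,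
      Fintype.card_units, hcard]
  have hpf : ((p : ℕ) : ZMod (p ^ f - 1)) ^ f = 1 := by
    have h1 : ((p ^ f - 1 : ℕ) : ZMod (p ^ f - 1)) = 0 := ZMod.natCast_self _
    rw [Nat.cast_sub (Nat.one_le_pow _ _ hp.pos)] at h1
    push_cast at h1
    exact sub_eq_zero.mp h1
  have hpu : IsUnit ((p : ℕ) : ZMod (p ^ f - 1)) :=
    IsUnit.of_pow_eq_one hpf (by omega)
  choose k hk using fun i => ch_surj hθn hGcard (χ i)
  refine ⟨p ^ f - 1, hne, fun a => T.e (ch θ a), k, hf, hpf, ?_, ?_, ?_, ?_, ?_⟩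
  · constructor
    · intro a ha
      show T.e (ch θ a) * T.e (ch θ (-a)) = T.L
      rw [ch_neg hθn]
      exact T.dual _ (ch_ne_one hθn ha)
    · intro a ha
      have ha' : (p : ZMod (p ^ f - 1)) * a ≠ 0 := by
        rwa [Ne, hpu.mul_right_eq_zero]
      apply T.tate _ _ (ch_ne_one hθn ha') (ch_ne_one hθn ha)
      refine ⟨Fintype.card F - 1, by omega, ?_⟩
      rw [ch_natMul hθn]
      have := gauss_pow hfr hp hψ (ch θ a) 1
      rwa [pow_one] at this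
    · rintro a b ha hb ⟨i, hi⟩ ⟨j, hj⟩
      apply T.tate _ _ (ch_ne_one hθn ha) (ch_ne_one hθn hb)
      refine ⟨4 * (Fintype.card F - 1), by omega, ?_⟩
      rw [gauss_ss hfr hp hψ (ch_ne_one hθn ha) (j := i) ?_,
        gauss_ss hfr hp hψ (ch_ne_one hθn hb) (j := j) ?_]
      · rw [← ch_neg hθn, hj, ← ch_natMul hθn]; push_cast; rfl
      · rw [← ch_neg hθn, hi, ← ch_natMul hθn]; push_cast; rfl
    · intro ℓ hℓ hℓn a ha
      have hord : orderOf (ch θ (((p ^ f - 1) / ℓ : ℕ) : ZMod (p ^ f - 1))) = ℓ := by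
        rw [ch_natCast hθn, orderOf_pow' _ (Nat.div_pos (Nat.le_of_dvd
          (Nat.pos_of_ne_zero (NeZero.ne _)) hℓn) hℓ.pos).ne', hθn,
          Nat.gcd_eq_right (Nat.div_dvd_of_dvd hℓn), Nat.div_div_self hℓn (NeZero.ne _)]
      have h1 := T.hasse (ch θ (((p ^ f - 1) / ℓ : ℕ) : ZMod (p ^ f - 1))) (ch θ a)
        (by rw [hord]; exact hℓ) (by
          rw [hord, ← ch_natMul hθn]; exact ch_ne_one hθn ha)
      rw [hord] at h1
      rw [prod_sol hℓ hℓn, prod_ker hℓ hℓn, ch_natMul hθn]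
      have h2 : ∀ j : ℕ, ch θ (((j * ((p ^ f - 1) / ℓ) : ℕ)) : ZMod (p ^ f - 1)) =
          ch θ (((p ^ f - 1) / ℓ : ℕ) : ZMod (p ^ f - 1)) ^ j := by
        intro j
        rw [← ch_natMul hθn, Nat.cast_mul]
      simp only [ch_add hθn, h2]
      exact h1
  · intro i h0
    apply hχ i
    rw [← hk i, h0, ch_zero]
  · intro i
    rw [← hk i, orderOf_ch hθn]
  · intro i
    simp only [hk]
  · intro u
    -- the generator `θ ^ (u⁻¹)`
    have hθ' : orderOf (ch θ ((u⁻¹ : (ZMod (p ^ f - 1))ˣ) : ZMod (p ^ f - 1))) =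
        p ^ f - 1 := orderOf_ch_unit hθn u⁻¹
    have key : ∀ i, ch θ ((u⁻¹ : (ZMod (p ^ f - 1))ˣ) : ZMod (p ^ f - 1)) ^
        ((u : ZMod (p ^ f - 1)) * k i).val = χ i := by
      intro i
      rw [← ch_mul hθn, ← hk i]
      congr 1
      rw [mul_comm ((u : ZMod (p ^ f - 1)) * k i), ← mul_assoc, Units.inv_mul, one_mul]
    have hk0 : ∀ i, k i ≠ 0 := by
      intro i h0
      apply hχ i
      rw [← hk i, h0, ch_zero]
    exact hst p f hp hf F hcard (ch θ ((u⁻¹ : (ZMod (p ^ f - 1))ˣ) : ZMod (p ^ f - 1)))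
      (by rw [hθ', hcard]) ψ hψ ι (fun i => (u : ZMod (p ^ f - 1)) * k i) c N
      (fun i => by
        have := hk0 i
        rwa [Ne, u.isUnit.mul_right_eq_zero]) hc hN
      (by simp only [key]; exact hg)

end FIDaux

theorem fid (h1 : PIDStmt) (h2 : STIStmt) (h3 : FROStmt) : FIDStmt := by
  intro p f hp F _ _ hcard ψ hψ P _ T ι _ χ c N hχ hA hc hN hg
  obtain ⟨n, _, E, k, hf, hpf, hE, hk0, hko, hEk, hs⟩ :=
    FIDaux.core h2 h3 p f hp F hcard ψ hψ P T ι χ c N hχ hc hN hg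
  have h := h1 n p f hf hpf P T.L E hE ι k c hk0 (fun i => by rw [hko]; exact hA i) hc hs
  simpa only [hEk] using h

end Pool.Agent.H77.FT
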